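import Mathlib

/-!
# Oscillating growth of finitely presented semigroups

There is a function `f₂` of subexponential growth such that every finitely presented semigroup
whose growth function exceeds `f₂` infinitely often has exponential growth.  Hence the analogue for
finitely presented semigroups of Trofimov's theorem (all pairs `f₁ ≁ n²`, `f₂ ≁ 2^n`) is false, for
this `f₂` and for every `f₁` of subexponential growth, for instance `f₁ = n³`.
-/

set_option autoImplicit false

namespace Pool.Agent.Results.MP_dd6e79_al.NoOscillation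

open Filter

universe u

/-- the growth function of the semigroup `S` with respect to `X`: the number of elements of `S`
that are products of at most `n` (and at least one) elements of `X` -/
noncomputable def growth {S : Type u} [Semigroup S] (X : Set S) (n : ℕ) : ℕ :=
  Set.ncard {s : S | ∃ w : FreeSemigroup X, w.length ≤ n ∧
    FreeSemigroup.lift (fun x : X => (x : S)) w = s}

/-- `S` is finitely presented: it is isomorphic to the quotient of the free semigroup on `k`
letters by the congruence generated by a finite set of pairs of words -/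
def FinPres (S : Type u) [Semigroup S] : Prop :=
  ∃ (k : ℕ) (R : Set (FreeSemigroup (Fin k) × FreeSemigroup (Fin k))), R.Finite ∧
    Nonempty (S ≃* (conGen fun a b => (a, b) ∈ R).Quotient)

/-- `f ⪯ g`: there is a constant `C ≥ 1` with `f(n) ≤ C g(Cn)` for all `n` -/
def Dom (f g : ℕ → ℕ) : Prop := ∃ C : ℕ, 1 ≤ C ∧ ∀ n, f n ≤ C * g (C * n)

/-- `f ∼ g`: `f ⪯ g` and `g ⪯ f` -/
def Sim (f g : ℕ → ℕ) : Prop := Dom f g ∧ Dom g f

/-- `f` grows subexponentially: for every `q`, `f(n) ≤ 2^(n/q)` for all large `n` -/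
def Sub (f : ℕ → ℕ) : Prop := ∀ q : ℕ, ∀ᶠ n in atTop, f n ^ q ≤ 2 ^ n

/-! ### the set of elements of bounded length -/

section Basic

variable {S : Type u} [Semigroup S]

/-- elements of length at most `n` -/
def ball (X : Set S) (n : ℕ) : Set S :=
  {s : S | ∃ w : FreeSemigroup X, w.length ≤ n ∧ FreeSemigroup.lift (fun x : X => (x : S)) w = s}

theorem growth_eq (X : Set S) (n : ℕ) : growth X n = (ball X n).ncard := rfl

theorem words_finite {α : Type u} [Finite α] (n : ℕ) :
    {w : FreeSemigroup α | w.length ≤ n}.Finite := by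
  have h : ({l : List α | l.length ≤ n}).Finite := List.finite_length_le α n
  refine Set.Finite.of_finite_image (f := fun w : FreeSemigroup α => w.head :: w.tail)
    (h.subset ?_) ?_
  · rintro _ ⟨w, hw, rfl⟩
    simpa [FreeSemigroup.length] using hw
  · rintro ⟨a, l⟩ _ ⟨b, m⟩ _ hab
    simp only [List.cons.injEq] at hab
    rw [hab.1, hab.2]

theorem ball_finite {X : Set S} (hX : X.Finite) (n : ℕ) : (ball X n).Finite := by
  have : Finite X := hX
  refine ((words_finite (α := X) n).image (FreeSemigroup.lift (fun x : X => (x : S)))).subset ?_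
  rintro s ⟨w, hw, rfl⟩
  exact ⟨w, hw, rfl⟩

theorem ball_mono (X : Set S) {m n : ℕ} (h : m ≤ n) : ball X m ⊆ ball X n := by
  rintro s ⟨w, hw, rfl⟩
  exact ⟨w, hw.trans h, rfl⟩

theorem growth_mono {X : Set S} (hX : X.Finite) : Monotone (growth X) := by
  intro m n h
  exact Set.ncard_le_ncard (ball_mono X h) (ball_finite hX n)

theorem ball_add (X : Set S) (m n : ℕ) :
    ball X (m + n) ⊆ (ball X m ∪ ball X n) ∪
      (fun p : S × S => p.1 * p.2) '' (ball X m ×ˢ ball X n) := by
  rintro s ⟨w, hw, rfl⟩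
  by_cases h1 : w.length ≤ m
  · exact Or.inl (Or.inl ⟨w, h1, rfl⟩)
  rcases Nat.eq_zero_or_pos m with rfl | hm
  · exact Or.inl (Or.inr ⟨w, by simpa using hw, rfl⟩)
  right
  obtain ⟨a, l⟩ := w
  simp only [FreeSemigroup.length] at h1 hw
  have hlt : m - 1 < l.length := by omega
  refine ⟨(FreeSemigroup.lift (fun x : X => (x : S)) ⟨a, l.take (m - 1)⟩,
    FreeSemigroup.lift (fun x : X => (x : S)) ⟨l[m - 1], l.drop m⟩), ⟨?_, ?_⟩, ?_⟩
  · refine ⟨_, ?_, rfl⟩
    simp only [FreeSemigroup.length, List.length_take]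
    omega
  · refine ⟨_, ?_, rfl⟩
    simp only [FreeSemigroup.length, List.length_drop]
    omega
  · simp only
    rw [← map_mul]
    congr 1
    rw [FreeSemigroup.mk_mul_mk]
    congr 1
    have e : m - 1 + 1 = m := by omega
    conv_rhs => rw [← List.take_append_drop (m - 1) l]
    rw [List.drop_eq_getElem_cons hlt, e]

theorem growth_add {X : Set S} (hX : X.Finite) (m n : ℕ) :
    1 + growth X (m + n) ≤ (1 + growth X m) * (1 + growth X n) := by
  have h1 : growth X (m + n) ≤ ((ball X m ∪ ball X n) ∪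
      (fun p : S × S => p.1 * p.2) '' (ball X m ×ˢ ball X n)).ncard := by
    refine Set.ncard_le_ncard (ball_add X m n) ?_
    exact ((ball_finite hX m).union (ball_finite hX n)).union
      (((ball_finite hX m).prod (ball_finite hX n)).image _)
  have h2 := Set.ncard_union_le (ball X m ∪ ball X n)
      ((fun p : S × S => p.1 * p.2) '' (ball X m ×ˢ ball X n))
  have h3 := Set.ncard_union_le (ball X m) (ball X n)
  have h4 : ((fun p : S × S => p.1 * p.2) '' (ball X m ×ˢ ball X n)).ncard ≤
      (ball X m ×ˢ ball X n).ncard :=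
    Set.ncard_image_le ((ball_finite hX m).prod (ball_finite hX n))
  rw [Set.ncard_prod] at h4
  simp only [← growth_eq] at h2 h3 h4
  nlinarith

end Basic

/-! ### the dichotomy -/

/-- the growth function is subexponential, or it exceeds eventually every subexponential
function -/
theorem dichotomy {S : Type u} [Semigroup S] {X : Set S} (hX : X.Finite) :
    Sub (growth X) ∨ ∀ f : ℕ → ℕ, Sub f → ∀ᶠ n in atTop, f n ≤ growth X n := by
  set u : ℕ → ℝ := fun n => Real.log (1 + growth X n) with hu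
  have hpos : ∀ n, (0 : ℝ) < 1 + growth X n := fun n => by positivity
  have hsub : Subadditive u := by
    intro m n
    simp only [hu]
    rw [← Real.log_mul (hpos m).ne' (hpos n).ne']
    refine Real.log_le_log (hpos _) ?_
    exact_mod_cast growth_add hX m n
  have hnn : ∀ n, 0 ≤ u n := fun n => Real.log_nonneg (by simp)
  have hbdd : BddBelow (Set.range fun n => u n / n) :=
    ⟨0, by rintro _ ⟨n, rfl⟩; exact div_nonneg (hnn n) (Nat.cast_nonneg n)⟩
  have hlim := hsub.tendsto_lim hbdd
  have hl2 : 0 < Real.log 2 := Real.log_pos (by norm_num)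
  by_cases hc : hsub.lim ≤ 0
  · left
    intro q
    have hq : (0 : ℝ) < Real.log 2 / (q + 1) := by positivity
    have h1 : ∀ᶠ n in atTop, u n / n < Real.log 2 / (q + 1) :=
      hlim.eventually_lt_const (lt_of_le_of_lt hc hq)
    filter_upwards [h1, eventually_gt_atTop 0] with n hn hn0
    have hn0' : (0 : ℝ) < n := by exact_mod_cast hn0
    rw [div_lt_iff₀ hn0'] at hn
    have h2 : (q + 1 : ℝ) * u n < n * Real.log 2 := by
      have h3 : (0 : ℝ) < q + 1 := by positivity
      calc (q + 1 : ℝ) * u n < (q + 1) * (Real.log 2 / (q + 1) * n) := by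
            exact (mul_lt_mul_iff_right₀ h3).2 hn
        _ = n * Real.log 2 := by field_simp
    have h4 : ((1 + growth X n : ℝ)) ^ (q + 1) < 2 ^ n := by
      rw [← Real.log_lt_log_iff (by positivity) (by positivity), Real.log_pow, Real.log_pow]
      push_cast
      exact h2
    have h5 : (growth X n : ℝ) ^ q ≤ (1 + growth X n : ℝ) ^ (q + 1) := by
      calc (growth X n : ℝ) ^ q ≤ (1 + growth X n : ℝ) ^ q :=
            pow_le_pow_left₀ (by positivity) (by linarith) q
        _ ≤ (1 + growth X n : ℝ) ^ (q + 1) :=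
            pow_le_pow_right₀ (by linarith [(Nat.cast_nonneg (growth X n) : (0 : ℝ) ≤ _)])
              (Nat.le_succ q)
    exact_mod_cast (h5.trans h4.le)
  · right
    push Not at hc
    intro f hf
    set l := hsub.lim with hldef
    obtain ⟨q, hq⟩ := exists_nat_gt (2 * Real.log 2 / l)
    have hq0 : 0 < q := by
      have : (0 : ℝ) < 2 * Real.log 2 / l := by positivity
      exact_mod_cast this.trans hq
    have hq0' : (0 : ℝ) < q := by exact_mod_cast hq0
    have h6 : Tendsto (fun n : ℕ => (n : ℝ) * (l / 2)) atTop atTop :=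
      tendsto_natCast_atTop_atTop.atTop_mul_const (by positivity)
    filter_upwards [hf q, eventually_gt_atTop 0, h6.eventually_ge_atTop (Real.log 2)]
      with n hn hn0 hn2
    have hn0' : (0 : ℝ) < n := by exact_mod_cast hn0
    have h1 : l ≤ u n / n := hsub.lim_le_div hbdd hn0.ne'
    rw [le_div_iff₀ hn0'] at h1
    set E : ℝ := Real.exp (n * (l / 2)) with hE
    have hE2 : 2 ≤ E := by
      rw [hE, ← Real.log_le_iff_le_exp (by norm_num)]
      exact hn2
    have h2 : E * E ≤ 1 + growth X n := by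
      rw [hE, ← Real.exp_add, ← Real.le_log_iff_exp_le (hpos n)]
      calc (n : ℝ) * (l / 2) + n * (l / 2) = l * n := by ring
        _ ≤ u n := h1
    have h3 : (f n : ℝ) ≤ E := by
      by_contra hlt
      push Not at hlt
      have h7 : E ^ q < (f n : ℝ) ^ q := pow_lt_pow_left₀ hlt (by positivity) hq0.ne'
      have h8 : (f n : ℝ) ^ q ≤ 2 ^ n := by exact_mod_cast hn
      have h9 : (2 : ℝ) ^ n ≤ E ^ q := by
        rw [← Real.log_le_log_iff (by positivity) (by positivity), Real.log_pow, Real.log_pow,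
          hE, Real.log_exp]
        have h10 : 2 * Real.log 2 < q * l := by
          rw [div_lt_iff₀ hc] at hq
          exact hq
        nlinarith
      linarith
    have h4 : E ≤ growth X n := by nlinarith
    exact_mod_cast h3.trans h4

/-! ### countability -/

/-- the countably many growth functions of finitely presented semigroups -/
noncomputable def G (p : Σ k : ℕ, Finset (FreeSemigroup (Fin k) × FreeSemigroup (Fin k)) ×
    Finset (FreeSemigroup (Fin k))) : ℕ → ℕ :=
  growth (S := (conGen fun a b : FreeSemigroup (Fin p.1) => (a, b) ∈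
      (p.2.1 : Set (FreeSemigroup (Fin p.1) × FreeSemigroup (Fin p.1)))).Quotient)
    (Con.toQuotient '' (p.2.2 : Set (FreeSemigroup (Fin p.1))))

theorem countable_free (k : ℕ) : Countable (FreeSemigroup (Fin k)) := by
  refine Function.Injective.countable (f := fun w : FreeSemigroup (Fin k) => (w.head, w.tail)) ?_
  rintro ⟨a, l⟩ ⟨b, m⟩ h
  simp only [Prod.mk.injEq] at h
  rw [h.1, h.2]

theorem countable_G : (Set.range G).Countable := by
  have : ∀ k, Countable (FreeSemigroup (Fin k)) := countable_free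
  exact Set.countable_range G

theorem ball_map {S : Type u} {T : Type} [Semigroup S] [Semigroup T] (e : S ≃* T) (X : Set S)
    (n : ℕ) : ball (e '' X) n = e '' ball X n := by
  ext t
  constructor
  · rintro ⟨w, hw, rfl⟩
    refine ⟨FreeSemigroup.lift (fun x : X => (x : S))
      (FreeSemigroup.map (fun y : e '' X => (⟨e.symm y, by
        obtain ⟨x, hx, hxy⟩ := y.2
        rw [← hxy, e.symm_apply_apply]; exact hx⟩ : X)) w),
      ⟨_, by rw [FreeSemigroup.length_map]; exact hw, rfl⟩, ?_⟩
    induction w using FreeSemigroup.recOnMul with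
    | ih1 x => simp
    | ih2 x y hx hy =>
      rw [map_mul, map_mul, map_mul, map_mul]
      rw [hx (by rw [FreeSemigroup.length_mul] at hw; omega),
        hy (by rw [FreeSemigroup.length_mul] at hw; omega)]
  · rintro ⟨s, ⟨w, hw, rfl⟩, rfl⟩
    refine ⟨FreeSemigroup.map (fun x : X => (⟨e x, x, x.2, rfl⟩ : e '' X)) w,
      by rw [FreeSemigroup.length_map]; exact hw, ?_⟩
    induction w using FreeSemigroup.recOnMul with
    | ih1 x => simp
    | ih2 x y hx hy =>
      rw [map_mul, map_mul, map_mul, map_mul]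
      rw [hx (by rw [FreeSemigroup.length_mul] at hw; omega),
        hy (by rw [FreeSemigroup.length_mul] at hw; omega)]

theorem growth_mem (S : Type u) [Semigroup S] (X : Set S) (hS : FinPres S) (hX : X.Finite) :
    growth X ∈ Set.range G := by
  classical
  obtain ⟨k, R, hR, ⟨e⟩⟩ := hS
  obtain ⟨R, rfl⟩ := hR.exists_finset_coe
  have hsur : ∀ q : (conGen fun a b : FreeSemigroup (Fin k) => (a, b) ∈
      (R : Set (FreeSemigroup (Fin k) × FreeSemigroup (Fin k)))).Quotient,
      ∃ w : FreeSemigroup (Fin k), Con.toQuotient w = q :=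
    fun q => Quot.exists_rep q
  choose g hg using hsur
  set Y : Set (FreeSemigroup (Fin k)) := (fun x => g (e x)) '' X with hY
  have hYf : Y.Finite := hX.image _
  obtain ⟨W, hW⟩ := hYf.exists_finset_coe
  refine ⟨⟨k, R, W⟩, ?_⟩
  have h1 : ((Con.toQuotient (c := conGen fun a b : FreeSemigroup (Fin k) => (a, b) ∈
      (R : Set (FreeSemigroup (Fin k) × FreeSemigroup (Fin k))))) ''
      (W : Set (FreeSemigroup (Fin k)))) = e '' X := by
    rw [hW, hY, Set.image_image]
    refine Set.image_congr ?_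
    intro x _
    exact hg _
  funext n
  unfold G
  simp only
  rw [h1, growth_eq, ball_map, Set.ncard_image_of_injective _ e.injective, growth_eq]

/-! ### diagonalisation -/

theorem poly_le (q : ℕ) : ∀ᶠ n : ℕ in atTop, (2 * n) ^ q ≤ 2 ^ n := by
  have h := tendsto_pow_const_div_const_pow_of_one_lt q (r := (2 : ℝ)) (by norm_num)
  have h2 : (0 : ℝ) < 1 / 2 ^ q := by positivity
  filter_upwards [h.eventually_lt_const h2] with n hn
  rw [div_lt_div_iff₀ (by positivity) (by positivity)] at hn
  have : ((2 * n : ℕ) : ℝ) ^ q ≤ 2 ^ n := by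
    push_cast
    rw [mul_pow]
    linarith
  exact_mod_cast this

theorem diag {Γ : Set (ℕ → ℕ)} (hΓ : Γ.Countable) (hm : ∀ g ∈ Γ, Monotone g)
    (hs : ∀ g ∈ Γ, Sub g) :
    ∃ f : ℕ → ℕ, StrictMono f ∧ Sub f ∧ ∀ g ∈ Γ, ∀ᶠ n in atTop, g n ≤ f n := by
  classical
  set Γ' : Set (ℕ → ℕ) := insert (fun _ => 0) Γ with hΓ'
  have hne : Γ'.Nonempty := ⟨_, Set.mem_insert _ _⟩
  obtain ⟨u, hu⟩ := (hΓ.insert (fun _ => 0)).exists_eq_range hne
  have hm' : ∀ i, Monotone (u i) := by
    intro i
    have : u i ∈ Γ' := by rw [hΓ', hu]; exact ⟨i, rfl⟩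
    rcases this with h | h
    · rw [h]; exact monotone_const
    · exact hm _ h
  have hs' : ∀ i, Sub (u i) := by
    intro i
    have : u i ∈ Γ' := by rw [hΓ', hu]; exact ⟨i, rfl⟩
    rcases this with h | h
    · rw [h]
      intro q
      refine Eventually.of_forall fun n => ?_
      rcases Nat.eq_zero_or_pos q with rfl | hq
      · simpa using Nat.one_le_two_pow
      · simp [hq.ne']
    · exact hs _ h
  have hN : ∀ i, ∃ N, ∀ n, N ≤ n → u i n ^ (i + 1) ≤ 2 ^ n := fun i =>
    eventually_atTop.1 (hs' i (i + 1))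
  choose N hN using hN
  set f : ℕ → ℕ := fun n => n + ∑ i ∈ (Finset.range n).filter (fun i => N i ≤ n), u i n with hf
  refine ⟨f, ?_, ?_, ?_⟩
  · apply strictMono_nat_of_lt_succ
    intro n
    simp only [hf]
    have h1 : ∑ i ∈ (Finset.range n).filter (fun i => N i ≤ n), u i n ≤
        ∑ i ∈ (Finset.range (n + 1)).filter (fun i => N i ≤ n + 1), u i (n + 1) := by
      refine (Finset.sum_le_sum fun i _ => hm' i (Nat.le_succ n)).trans ?_
      refine Finset.sum_le_sum_of_subset ?_
      intro i hi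
      simp only [Finset.mem_filter, Finset.mem_range] at hi ⊢
      omega
    omega
  · intro q
    have h1 : ∀ᶠ n in atTop, ∀ i ∈ Finset.range (2 * q), u i n ^ (2 * q) ≤ 2 ^ n :=
      (Filter.eventually_all_finset _).2 fun i _ => hs' i (2 * q)
    filter_upwards [h1, poly_le (2 * q), eventually_ge_atTop 1] with n hn hp hn1
    have h2 : ∀ i ∈ (Finset.range n).filter (fun i => N i ≤ n), u i n ^ (2 * q) ≤ 2 ^ n := by
      intro i hi
      simp only [Finset.mem_filter, Finset.mem_range] at hi
      by_cases hi2 : i < 2 * q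
      · exact hn i (Finset.mem_range.2 hi2)
      · rcases Nat.eq_zero_or_pos (u i n) with h0 | h0
        · rw [h0]
          rcases Nat.eq_zero_or_pos (2 * q) with hq | hq
          · rw [hq]; simpa using Nat.one_le_two_pow
          · simp [hq.ne']
        · exact (Nat.pow_le_pow_right h0 (by omega)).trans (hN i n hi.2)
    have hMex : ∃ M : ℕ, M ^ (2 * q) ≤ 2 ^ n ∧ 1 ≤ M ∧
        ∀ i ∈ (Finset.range n).filter (fun i => N i ≤ n), u i n ≤ M := by
      rcases ((Finset.range n).filter (fun i => N i ≤ n)).eq_empty_or_nonempty with he | he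
      · exact ⟨1, by simpa using Nat.one_le_two_pow, le_refl _, by rw [he]; simp⟩
      · obtain ⟨i, hi, hmax⟩ := Finset.exists_max_image _ (fun i => u i n) he
        refine ⟨max 1 (u i n), ?_, le_max_left _ _, fun j hj => (hmax j hj).trans (le_max_right _ _)⟩
        rcases le_total (u i n) 1 with h | h
        · rw [max_eq_left h]; simpa using Nat.one_le_two_pow
        · rw [max_eq_right h]; exact h2 i hi
    obtain ⟨M, hM1, hM2, hM3⟩ := hMex
    have h3 : f n ≤ 2 * n * M := by
      simp only [hf]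
      have h4 : ∑ i ∈ (Finset.range n).filter (fun i => N i ≤ n), u i n ≤ n * M := by
        refine (Finset.sum_le_card_nsmul _ _ M hM3).trans ?_
        rw [smul_eq_mul]
        refine Nat.mul_le_mul_right _ ?_
        exact (Finset.card_filter_le _ _).trans (by simp)
      nlinarith
    have h5 : (f n ^ q) ^ 2 ≤ (2 ^ n) ^ 2 := by
      calc (f n ^ q) ^ 2 = f n ^ (2 * q) := by rw [← pow_mul]; ring_nf
        _ ≤ (2 * n * M) ^ (2 * q) := Nat.pow_le_pow_left h3 _
        _ = (2 * n) ^ (2 * q) * M ^ (2 * q) := mul_pow _ _ _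
        _ ≤ 2 ^ n * 2 ^ n := Nat.mul_le_mul hp hM1
        _ = (2 ^ n) ^ 2 := by ring
    exact (Nat.pow_le_pow_iff_left (by norm_num)).1 h5
  · intro g hg
    have : g ∈ Set.range u := by
      rw [← hu]; exact Set.mem_insert_of_mem _ hg
    obtain ⟨i, rfl⟩ := this
    filter_upwards [eventually_gt_atTop i, eventually_ge_atTop (N i)] with n h1 h2
    simp only [hf]
    have h3 : u i n ≤ ∑ i ∈ (Finset.range n).filter (fun i => N i ≤ n), u i n :=
      Finset.single_le_sum (f := fun i => u i n) (fun _ _ => Nat.zero_le _)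
        (by simp only [Finset.mem_filter, Finset.mem_range]; exact ⟨h1, h2⟩)
    omega

theorem dom_of_sub {f : ℕ → ℕ} (hm : Monotone f) (hs : Sub f) : Dom f (fun n => 2 ^ n) := by
  obtain ⟨M, hM⟩ := eventually_atTop.1 (hs 1)
  refine ⟨max 1 (f M), le_max_left _ _, fun n => ?_⟩
  rcases le_total M n with h | h
  · have h1 := hM n h
    rw [pow_one] at h1
    calc f n ≤ 2 ^ n := h1
      _ ≤ 2 ^ (max 1 (f M) * n) :=
          Nat.pow_le_pow_right (by norm_num) (Nat.le_mul_of_pos_left n (by omega))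
      _ ≤ max 1 (f M) * 2 ^ (max 1 (f M) * n) := Nat.le_mul_of_pos_left _ (by omega)
  · calc f n ≤ f M := hm h
      _ ≤ max 1 (f M) := le_max_right _ _
      _ ≤ max 1 (f M) * 2 ^ (max 1 (f M) * n) := Nat.le_mul_of_pos_right _ (by positivity)

theorem not_dom_of_sub {f : ℕ → ℕ} (hs : Sub f) : ¬ Dom (fun n => 2 ^ n) f := by
  rintro ⟨C, hC, h⟩
  obtain ⟨M, hM⟩ := eventually_atTop.1 (hs (2 * C))
  set n := M + C ^ 2 + 1 with hn
  have h1 : M ≤ C * n := by nlinarith
  have h2 := hM (C * n) h1
  have h3 : (f (C * n) ^ 2) ^ C ≤ (2 ^ n) ^ C := by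
    rw [← pow_mul, ← pow_mul, Nat.mul_comm n C]
    exact h2
  have h4 : f (C * n) ^ 2 ≤ 2 ^ n := (Nat.pow_le_pow_iff_left (by omega)).1 h3
  have h5 : (2 ^ n) ^ 2 ≤ (C * f (C * n)) ^ 2 := Nat.pow_le_pow_left (h n) 2
  have h6 : (2 ^ n) ^ 2 ≤ C ^ 2 * 2 ^ n := by
    calc (2 ^ n) ^ 2 ≤ (C * f (C * n)) ^ 2 := h5
      _ = C ^ 2 * f (C * n) ^ 2 := mul_pow _ _ _
      _ ≤ C ^ 2 * 2 ^ n := Nat.mul_le_mul_left _ h4
  have h7 : 2 ^ n ≤ C ^ 2 := by
    rw [sq] at h6
    exact Nat.le_of_mul_le_mul_right h6 (by positivity)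
  have h8 : n < 2 ^ n := Nat.lt_two_pow_self
  omega

theorem sub_cube : Sub (fun n => n ^ 3) := by
  intro q
  filter_upwards [poly_le (3 * q)] with n hn
  calc (n ^ 3) ^ q = n ^ (3 * q) := (pow_mul _ _ _).symm
    _ ≤ (2 * n) ^ (3 * q) := Nat.pow_le_pow_left (by omega) _
    _ ≤ 2 ^ n := hn

/-- **No oscillation below and above.**  There is a strictly increasing `f₂ ⪯ 2^n`, `f₂ ≁ 2^n`
such that for every increasing `f₁` of subexponential growth with `n² ⪯ f₁` and `f₁ ≁ n²` (for
instance `n³`), every finitely presented semigroup `S` and every finite generating set `X` of `S`,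
the growth function `f_S` satisfies `f_S(n) ≥ f₁(n)` for all large `n`, or `f_S(n) ≤ f₂(n)` for
all large `n`. -/
theorem result : ∃ f₂ : ℕ → ℕ, StrictMono f₂ ∧ Dom f₂ (fun n => 2 ^ n) ∧
    ¬ Sim f₂ (fun n => 2 ^ n) ∧
    (∃ f₁ : ℕ → ℕ, StrictMono f₁ ∧ Dom (fun n => n ^ 2) f₁ ∧ ¬ Sim f₁ (fun n => n ^ 2) ∧ Sub f₁) ∧
    ∀ f₁ : ℕ → ℕ, Sub f₁ →
      ∀ (S : Type u) [Semigroup S] (X : Set S), FinPres S → X.Finite →
        Subsemigroup.closure X = ⊤ →
        (∀ᶠ n in atTop, f₁ n ≤ growth X n) ∨ (∀ᶠ n in atTop, growth X n ≤ f₂ n) := by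
  set Γ : Set (ℕ → ℕ) := {g | g ∈ Set.range G ∧ Monotone g ∧ Sub g} with hΓ
  have hc : Γ.Countable := countable_G.mono fun g hg => hg.1
  obtain ⟨f₂, h1, h2, h3⟩ := diag hc (fun g hg => hg.2.1) (fun g hg => hg.2.2)
  refine ⟨f₂, h1, dom_of_sub h1.monotone h2, fun h => not_dom_of_sub h2 h.2, ?_, ?_⟩
  · refine ⟨fun n => n ^ 3, Nat.pow_left_strictMono (by norm_num), ⟨1, le_refl _, fun n => ?_⟩,
      ?_, sub_cube⟩
    · simp only [one_mul]
      rcases Nat.eq_zero_or_pos n with rfl | hn
      · simp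
      · exact Nat.pow_le_pow_right hn (by norm_num)
    · rintro ⟨⟨C, hC, h⟩, -⟩
      have h4 := h (C ^ 3 + 1)
      simp only at h4
      have h5 : C * (C * (C ^ 3 + 1)) ^ 2 = C ^ 3 * (C ^ 3 + 1) ^ 2 := by ring
      rw [h5] at h4
      have h6 : (C ^ 3 + 1) ^ 3 = (C ^ 3 + 1) * (C ^ 3 + 1) ^ 2 := by ring
      rw [h6] at h4
      have h7 := Nat.le_of_mul_le_mul_right h4 (by positivity)
      omega
  · intro f₁ hf₁ S _ X hS hX _
    rcases dichotomy hX with h | h
    · right
      exact h3 _ ⟨growth_mem S X hS hX, growth_mono hX, h⟩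
    · left
      exact h f₁ hf₁

end Pool.Agent.Results.MP_dd6e79_al.NoOscillation
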